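import Mathlib

namespace Pool.Agent.H.MP_dc3585_lc

open Set

theorem thin {X : Type*} (r : X → X → Prop) [IsWellOrder X r] (A : Set X) (hA : ¬ A.Countable) :
    ∃ B ⊆ A, ¬ B.Countable ∧ ∀ x ∈ B, {y ∈ B | ¬ r x y}.Countable := by
  refine ⟨{x ∈ A | {y ∈ A | r y x}.Countable}, fun x hx => hx.1, fun hB => ?_, fun x hx => ?_⟩
  · have hne : {x ∈ A | ¬ {y ∈ A | r y x}.Countable}.Nonempty := by
      by_contra h
      apply hA
      refine hB.mono fun x hx => And.intro hx ?_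
      by_contra h'
      exact h ⟨x, hx, h'⟩
    obtain ⟨m, ⟨hm, hm'⟩, hmin⟩ := (IsWellFounded.wf (r := r)).has_min _ hne
    refine hm' (hB.mono fun y hy => And.intro hy.1 ?_)
    by_contra h'
    exact hmin y ⟨hy.1, h'⟩ hy.2
  · refine (hx.2.insert x).mono fun y hy => ?_
    rcases trichotomous_of r x y with h | h | h
    · exact absurd h hy.2
    · exact Or.inl h.symm
    · exact Or.inr ⟨hy.1.1, h⟩

theorem unc_diff {X : Type*} {E B : Set X} (hE : ¬ E.Countable) (hB : B.Countable) :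
    ∃ x ∈ E, x ∉ B := by
  by_contra h
  push Not at h
  exact hE (hB.mono h)

theorem real_chain {X : Type*} (E : Set X) (hE : ¬ E.Countable) (φ : X → ℝ) (hφ : InjOn φ E)
    (G : X → X → Prop) (hG : ∀ x ∈ E, {y ∈ E | ¬ G x y}.Countable) :
    ∃ e : ℕ → X, (∀ k, e k ∈ E) ∧ ∀ k, φ (e k) < φ (e (k + 1)) ∧ G (e k) (e (k + 1)) := by
  let B := {x ∈ E | {y ∈ E | φ x < φ y}.Countable}
  have hB : B.Countable := by
    have h1 : (⋃ q : {q : ℚ // {y ∈ E | (q : ℝ) < φ y}.Countable},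
        {y ∈ E | (q.1 : ℝ) < φ y}).Countable := countable_iUnion fun q => q.2
    have h2 : (B \ ⋃ q : {q : ℚ // {y ∈ E | (q : ℝ) < φ y}.Countable},
        {y ∈ E | (q.1 : ℝ) < φ y}).Subsingleton := by
      have : ∀ x ∈ B, ∀ y ∈ B, φ x < φ y → y ∈ ⋃ q : {q : ℚ // {y ∈ E | (q : ℝ) < φ y}.Countable},
          {y ∈ E | (q.1 : ℝ) < φ y} := by
        intro x hx y hy hxy
        obtain ⟨q, h1, h2⟩ := exists_rat_btwn hxy
        exact mem_iUnion.2 ⟨⟨q, hx.2.mono fun z hz => And.intro hz.1 (h1.trans hz.2)⟩, hy.1, h2⟩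
      intro x hx y hy
      rcases lt_trichotomy (φ x) (φ y) with h | h | h
      · exact absurd (this x hx.1 y hy.1 h) hy.2
      · exact hφ hx.1.1 hy.1.1 h
      · exact absurd (this y hy.1 x hx.1 h) hx.2
    exact (h2.countable.union h1).mono (subset_sdiff_union _ _)
  have step : ∀ x : {x // x ∈ E ∧ x ∉ B}, ∃ y : {x // x ∈ E ∧ x ∉ B},
      φ x.1 < φ y.1 ∧ G x.1 y.1 := by
    rintro ⟨x, hx, hxB⟩
    have : ¬ {y ∈ E | φ x < φ y}.Countable := fun h => hxB ⟨hx, h⟩
    obtain ⟨y, hy, hy'⟩ := unc_diff this (hB.union (hG x hx))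
    refine ⟨⟨y, hy.1, fun h => hy' (Or.inl h)⟩, hy.2, ?_⟩
    by_contra h
    exact hy' (Or.inr ⟨hy.1, h⟩)
  choose nx hnx using step
  obtain ⟨x₀, h0, h0'⟩ := unc_diff hE hB
  refine ⟨fun k => (nx^[k] ⟨x₀, h0, h0'⟩).1, fun k => (nx^[k] ⟨x₀, h0, h0'⟩).2.1, fun k => ?_⟩
  simp only [Function.iterate_succ_apply']
  exact hnx _

theorem pick {X : Type*} (r : X → X → Prop) (A : Set X)
    (hA : ∀ x ∈ A, {y ∈ A | ¬ r x y}.Countable) (L : ℕ → Set X) (hL : ∀ k, L k ⊆ A)
    (hL' : ∀ k, ¬ (L k).Countable) :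
    ∃ f : ℕ → X, (∀ k, f k ∈ L k) ∧ ∀ k, r (f k) (f (k + 1)) := by
  have step : ∀ k, ∀ x : L k, ∃ y : L (k + 1), r x.1 y.1 := by
    intro k x
    obtain ⟨y, hy, hy'⟩ := unc_diff (hL' (k + 1)) (hA x.1 (hL k x.2))
    refine ⟨⟨y, hy⟩, ?_⟩
    by_contra h
    exact hy' ⟨hL _ hy, h⟩
  choose nx hnx using step
  obtain ⟨x₀, h0, -⟩ := unc_diff (hL' 0) countable_empty
  let f : ∀ k, L k := fun k => Nat.rec ⟨x₀, h0⟩ (fun k x => nx k x) k
  exact ⟨fun k => (f k).1, fun k => (f k).2, fun k => hnx k (f k)⟩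

variable {S : Type*} (j : S → ℝ → Bool) (w : ℝ → ℝ → Prop) (r : S → S → Prop)

/-- first difference at δ -/
def Del (f g : S) (δ : ℝ) : Prop := j f δ ≠ j g δ ∧ ∀ ε, w ε δ → j f ε = j g ε

def Lt (f g : S) : Prop := ∃ δ, Del j w f g δ ∧ j f δ = false

def Q (f g h : S) : Prop :=
  (∃ δ δ', Del j w f g δ ∧ Del j w g h δ' ∧ (w δ δ' ↔ δ < δ')) ↔ (r f g ∧ r g h)

def Col [DecidableEq S] (T : Finset S) : Prop :=
  ∃ f g h, T = {f, g, h} ∧ Lt j w f g ∧ Lt j w g h ∧ Lt j w f h ∧ Q j w r f g h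

variable {j w r}

theorem Del.symm {f g : S} {δ : ℝ} (h : Del j w f g δ) : Del j w g f δ :=
  ⟨h.1.symm, fun ε hε => (h.2 ε hε).symm⟩

theorem Del.uniq [IsWellOrder ℝ w] {f g : S} {δ δ' : ℝ} (h : Del j w f g δ) (h' : Del j w f g δ') :
    δ = δ' := by
  rcases trichotomous_of w δ δ' with e | e | e
  · exact absurd (h'.2 _ e) h.1
  · exact e
  · exact absurd (h.2 _ e) h'.1

theorem exists_del [IsWellOrder ℝ w] {f g : S} (h : j f ≠ j g) : ∃ δ, Del j w f g δ := by
  obtain ⟨m, hm, hmin⟩ := (IsWellFounded.wf (r := w)).has_min {δ | j f δ ≠ j g δ}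
    (Function.ne_iff.1 h)
  refine ⟨m, hm, fun ε hε => ?_⟩
  by_contra h'
  exact hmin ε h' hε

theorem Lt.asymm [IsWellOrder ℝ w] {f g : S} (h : Lt j w f g) : ¬ Lt j w g f := by
  rintro ⟨δ', h3, h4⟩
  obtain ⟨δ, h1, h2⟩ := h
  have := h1.uniq h3.symm
  subst this
  exact h1.1 (h2.trans h4.symm)

theorem col_iff [IsWellOrder ℝ w] [DecidableEq S] {f g h : S} (h1 : Lt j w f g) (h2 : Lt j w g h)
    (h3 : Lt j w f h) : Col j w r {f, g, h} ↔ Q j w r f g h := by
  refine ⟨?_, fun hq => ⟨f, g, h, rfl, h1, h2, h3, hq⟩⟩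
  rintro ⟨a, b, c, e, k1, k2, k3, hq⟩
  have ha : a ∈ ({f, g, h} : Finset S) := by rw [e]; simp
  have hb : b ∈ ({f, g, h} : Finset S) := by rw [e]; simp
  have hc : c ∈ ({f, g, h} : Finset S) := by rw [e]; simp
  simp only [Finset.mem_insert, Finset.mem_singleton] at ha hb hc
  have a1 := h1.asymm
  have a2 := h2.asymm
  have a3 := h3.asymm
  have b1 := k1.asymm
  have b2 := k2.asymm
  have b3 := k3.asymm
  rcases ha with rfl | rfl | rfl <;> rcases hb with rfl | rfl | rfl <;>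
    rcases hc with rfl | rfl | rfl <;> first | exact hq | contradiction

structure Comb (j : S → ℝ → Bool) (w : ℝ → ℝ → Prop) (r : S → S → Prop) (n : ℕ) (f : ℕ → S)
    (δ : ℕ → ℝ) (d : Bool) (x y : Prop) : Prop where
  del : ∀ a b, a < b → b < n → Del j w (f a) (f b) (δ a)
  dir : ∀ a, a < n → j (f a) (δ a) = d
  wlt : ∀ a b, a < b → b < n → w (δ a) (δ b)
  rx : ∀ a b, a < b → b < n → (δ a < δ b ↔ x)
  ry : ∀ a b, a < b → b < n → (r (f a) (f b) ↔ y) ∧ (r (f b) (f a) ↔ ¬ y)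

theorem sorted3 (T : Finset ℕ) (hc : T.card = 3) : ∃ a b c, a < b ∧ b < c ∧ T = {a, b, c} := by
  obtain ⟨a, b, c, n1, n2, n3, rfl⟩ := Finset.card_eq_three.1 hc
  rcases lt_or_gt_of_ne n1 with k1 | k1 <;> rcases lt_or_gt_of_ne n2 with k2 | k2 <;>
    rcases lt_or_gt_of_ne n3 with k3 | k3
  · exact ⟨a, b, c, k1, k3, rfl⟩
  · exact ⟨a, c, b, k2, k3, by ext; simp only [Finset.mem_insert, Finset.mem_singleton]; omega⟩
  · omega
  · exact ⟨c, a, b, k2, k1, by ext; simp only [Finset.mem_insert, Finset.mem_singleton]; omega⟩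
  · exact ⟨b, a, c, k1, k2, by ext; simp only [Finset.mem_insert, Finset.mem_singleton]; omega⟩
  · omega
  · exact ⟨b, c, a, k3, k2, by ext; simp only [Finset.mem_insert, Finset.mem_singleton]; omega⟩
  · exact ⟨c, b, a, k3, k1, by ext; simp only [Finset.mem_insert, Finset.mem_singleton]; omega⟩

theorem Comb.hom [IsWellOrder ℝ w] [DecidableEq S] {n : ℕ} {f : ℕ → S} {δ : ℕ → ℝ} {d : Bool}
    {x y : Prop} (C : Comb j w r n f δ d x y) :
    ((Finset.range n).image f).card = n ∧ ∀ T ⊆ (Finset.range n).image f, T.card = 3 →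
      (Col j w r T ↔ ((x ↔ y) ↔ d = false)) := by
  constructor
  · rw [Finset.card_image_of_injOn, Finset.card_range]
    intro a ha b hb e
    rcases lt_trichotomy a b with h | h | h
    · exact absurd (by rw [e]) (C.del a b h (by simpa using hb)).1
    · exact h
    · exact absurd (by rw [e]) (C.del b a h (by simpa using ha)).1
  have key : ∀ a b c, a < b → b < c → c < n →
      (Col j w r {f a, f b, f c} ↔ ((x ↔ y) ↔ d = false)) := by
    intro a b c hab hbc hc
    have d1 := C.del a b hab (by omega)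
    have d2 := C.del b c hbc hc
    have d3 := C.del a c (by omega) hc
    have w1 := C.wlt a b hab (by omega)
    have x1 := C.rx a b hab (by omega)
    have y1 := C.ry a b hab (by omega)
    have y2 := C.ry b c hbc hc
    cases d with
    | false =>
      rw [col_iff ⟨_, d1, C.dir a (by omega)⟩ ⟨_, d2, C.dir b (by omega)⟩
        ⟨_, d3, C.dir a (by omega)⟩, Q, y1.1, y2.1]
      have : (∃ ε ε', Del j w (f a) (f b) ε ∧ Del j w (f b) (f c) ε' ∧ (w ε ε' ↔ ε < ε')) ↔ x := by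
        constructor
        · rintro ⟨ε, ε', e1, e2, e3⟩
          rw [e1.uniq d1, e2.uniq d2] at e3
          exact x1.1 (e3.1 w1)
        · intro hx
          exact ⟨_, _, d1, d2, fun _ => x1.2 hx, fun _ => w1⟩
      rw [this]
      simp
    | true =>
      have flip : ∀ a b, a < b → b < n → Lt j w (f b) (f a) := by
        intro a b hab hb
        refine ⟨_, (C.del a b hab hb).symm, ?_⟩
        have := (C.del a b hab hb).1
        rw [C.dir a (by omega)] at this
        simpa using this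
      have e : ({f a, f b, f c} : Finset S) = {f c, f b, f a} := by
        ext z; simp only [Finset.mem_insert, Finset.mem_singleton]; tauto
      rw [e, col_iff (flip b c hbc hc) (flip a b hab (by omega)) (flip a c (by omega) hc), Q,
        y1.2, y2.2]
      have hne : δ a ≠ δ b := fun h => irrefl_of w _ (h ▸ w1 : w (δ b) (δ b))
      have : (∃ ε ε', Del j w (f c) (f b) ε ∧ Del j w (f b) (f a) ε' ∧ (w ε ε' ↔ ε < ε')) ↔ x := by
        constructor
        · rintro ⟨ε, ε', e1, e2, e3⟩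
          rw [e1.uniq d2.symm, e2.uniq d1.symm] at e3
          refine x1.1 (lt_of_le_of_ne (not_lt.1 fun h => ?_) hne)
          exact asymm_of w w1 (e3.2 h)
        · intro hx
          exact ⟨_, _, d2.symm, d1.symm, fun h => absurd h (asymm_of w w1),
            fun h => absurd h (not_lt.2 (x1.2 hx).le)⟩
      rw [this]
      simp only [and_self, Bool.true_eq_false, iff_false]
      tauto
  intro T hT h3
  obtain ⟨T', hT', rfl⟩ := Finset.subset_image_iff.1 hT
  have hc : T'.card = 3 := by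
    refine le_antisymm ?_ (h3 ▸ Finset.card_image_le)
    rw [← h3, Finset.card_image_of_injOn]
    intro a ha b hb e
    have ha' := Finset.mem_range.1 (hT' ha)
    have hb' := Finset.mem_range.1 (hT' hb)
    rcases lt_trichotomy a b with h | h | h
    · exact absurd (by rw [e]) (C.del a b h hb').1
    · exact h
    · exact absurd (by rw [e]) (C.del b a h ha').1
  obtain ⟨a, b, c, hab, hbc, rfl⟩ := sorted3 T' hc
  have := key a b c hab hbc (Finset.mem_range.1 (hT' (by simp)))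
  simpa using this

def Split (j : S → ℝ → Bool) (w : ℝ → ℝ → Prop) (U : Set S) : Prop :=
  ∃ δ, ∃ U₀ ⊆ U, ∃ U₁ ⊆ U, ¬ U₀.Countable ∧ ¬ U₁.Countable ∧
    (∀ f ∈ U₀, j f δ = false) ∧ ∀ f ∈ U₀, ∀ g ∈ U₁, Del j w f g δ

theorem kind2 [IsWellOrder ℝ w] [IsWellOrder S r] (A : Set S) (hA : ¬ A.Countable)
    (hA' : ∀ x ∈ A, {y ∈ A | ¬ r x y}.Countable)
    (h : ∀ U ⊆ A, ¬ U.Countable → Split j w U) (n : ℕ) :
    ∃ x : Prop, ∀ y : Prop, ∃ f δ, (∀ k, f k ∈ A) ∧ Comb j w r n f δ false x y := by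
  have step : ∀ U : {U : Set S // U ⊆ A ∧ ¬ U.Countable},
      ∃ (δ : ℝ) (U₀ : Set S) (U₁ : {U : Set S // U ⊆ A ∧ ¬ U.Countable}), U₀ ⊆ U.1 ∧ U₁.1 ⊆ U.1 ∧
        ¬ U₀.Countable ∧ (∀ f ∈ U₀, j f δ = false) ∧ ∀ f ∈ U₀, ∀ g ∈ U₁.1, Del j w f g δ := by
    rintro ⟨U, h1, h2⟩
    obtain ⟨δ, U₀, a1, U₁, a2, a3, a4, a5, a6⟩ := h U h1 h2
    exact ⟨δ, U₀, ⟨U₁, a2.trans h1, a4⟩, a1, a2, a3, a5, a6⟩
  choose dl L nx s1 s2 s3 s4 s5 using step
  let U : ℕ → {U : Set S // U ⊆ A ∧ ¬ U.Countable} := fun k => nx^[k] ⟨A, Subset.rfl, hA⟩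
  have hU : ∀ k, U (k + 1) = nx (U k) := fun k => Function.iterate_succ_apply' _ _ _
  have mono : ∀ a b, a ≤ b → (U b).1 ⊆ (U a).1 := by
    intro a b hab
    induction hab with
    | refl => exact Subset.rfl
    | step _ ih => rw [hU]; exact (s2 _).trans ih
  have hdel : ∀ a b, a < b → ∀ f ∈ L (U a), ∀ g ∈ (U b).1, Del j w f g (dl (U a)) := by
    intro a b hab f hf g hg
    exact s5 _ f hf g (hU a ▸ mono (a + 1) b hab hg)
  have hw : ∀ a b, a < b → w (dl (U a)) (dl (U b)) := by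
    intro a b hab
    obtain ⟨f, hf, -⟩ := unc_diff (s3 (U a)) countable_empty
    obtain ⟨g, hg, -⟩ := unc_diff (s3 (U b)) countable_empty
    obtain ⟨g', hg', -⟩ := unc_diff (nx (U b)).2.2 countable_empty
    have e1 := hdel a b hab f hf g (s1 _ hg)
    have e2 := hdel a b hab f hf g' (s2 _ hg')
    have e3 := s5 _ g hg g' hg'
    rcases trichotomous_of w (dl (U a)) (dl (U b)) with e | e | e
    · exact e
    · exfalso
      have b1 := e1.1
      have b2 := e2.1
      have b3 := e3.1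
      rw [← e] at b3
      revert b1 b2 b3
      cases j f (dl (U a)) <;> cases j g (dl (U a)) <;> cases j g' (dl (U a)) <;> simp
    · exact absurd ((e1.2 _ e).symm.trans (e2.2 _ e)) e3.1
  obtain ⟨g, hg⟩ := exists_increasing_or_nonincreasing_subseq (· < ·) fun k => dl (U k)
  have : ∃ x : Prop, ∀ a b, a < b → (dl (U (g a)) < dl (U (g b)) ↔ x) := by
    rcases hg with hg | hg
    · exact ⟨True, fun a b hab => iff_true_intro (hg a b hab)⟩
    · exact ⟨False, fun a b hab => iff_false_intro (hg a b hab)⟩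
  obtain ⟨x, hx⟩ := this
  refine ⟨x, fun y => ?_⟩
  have hLA : ∀ k, L (U k) ⊆ A := fun k => (s1 _).trans (U k).2.1
  have : ∃ f : ℕ → S, (∀ k, f k ∈ L (U (g k))) ∧ ∀ a b, a < b → b < n →
      (r (f a) (f b) ↔ y) ∧ (r (f b) (f a) ↔ ¬ y) := by
    by_cases hy : y
    · obtain ⟨f, h1, h2⟩ := pick r A hA' (fun k => L (U (g k))) (fun k => hLA _) (fun k => s3 _)
      refine ⟨f, h1, fun a b hab _ => ?_⟩
      have := Nat.rel_of_forall_rel_succ_of_lt r h2 hab
      exact ⟨iff_of_true this hy, iff_of_false (asymm_of r this) (not_not.2 hy)⟩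
    · obtain ⟨f, h1, h2⟩ := pick r A hA' (fun k => L (U (g (n - k)))) (fun k => hLA _)
        (fun k => s3 _)
      obtain ⟨f', h1', -⟩ := pick r A hA' (fun k => L (U (g k))) (fun k => hLA _) (fun k => s3 _)
      refine ⟨fun k => if k ≤ n then f (n - k) else f' k, fun k => ?_, fun a b hab hb => ?_⟩
      · dsimp only
        split_ifs with hk
        · have := h1 (n - k)
          rwa [Nat.sub_sub_self hk] at this
        · exact h1' k
      · have := Nat.rel_of_forall_rel_succ_of_lt r h2 (show n - b < n - a by omega)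
        simp only [show a ≤ n by omega, show b ≤ n by omega, if_true]
        exact ⟨iff_of_false (asymm_of r this) hy, iff_of_true this hy⟩
  obtain ⟨f, hf, hr⟩ := this
  refine ⟨f, fun k => dl (U (g k)), fun k => hLA _ (hf k), ?_, ?_, ?_, ?_, hr⟩
  · exact fun a b hab _ => hdel _ _ (g.strictMono hab) _ (hf a) _ (s1 _ (hf b))
  · exact fun a _ => s4 _ _ (hf a)
  · exact fun a b hab _ => hw _ _ (g.strictMono hab)
  · exact fun a b hab _ => hx a b hab

theorem kind1 [IsWellOrder ℝ w] [IsWellOrder S r] (hj : Function.Injective j) (U : Set S)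
    (hU : ¬ U.Countable) (hU' : ∀ x ∈ U, {y ∈ U | ¬ r x y}.Countable)
    (h : ¬ Split j w U) (n : ℕ) :
    ∃ d : Bool, ∀ x : Prop, ∃ f δ, (∀ k, f k ∈ U) ∧ Comb j w r n f δ d x True := by
  let cone : S → ℝ → Set S := fun g δ => {f ∈ U | ∀ ε, w ε δ → j f ε = j g ε}
  let cone' : S → ℝ → Set S := fun g δ => {f ∈ cone g δ | j f δ = j g δ}
  have nosplit : ∀ g g' ε, Del j w g g' ε → (cone' g ε).Countable ∨ (cone' g' ε).Countable := by
    have : ∀ g g' ε, Del j w g g' ε → j g ε = false →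
        (cone' g ε).Countable ∨ (cone' g' ε).Countable := by
      intro g g' ε hd hg
      by_contra hc
      push Not at hc
      refine h ⟨ε, cone' g ε, fun f hf => hf.1.1, cone' g' ε, fun f hf => hf.1.1, hc.1, hc.2,
        fun f hf => hf.2.trans hg, fun f hf f' hf' => ⟨?_, fun η hη => ?_⟩⟩
      · rw [hf.2, hf'.2]; exact hd.1
      · rw [hf.1.2 η hη, hf'.1.2 η hη]; exact hd.2 η hη
    intro g g' ε hd
    cases hg : j g ε
    · exact this g g' ε hd hg
    · refine (this g' g ε hd.symm ?_).symm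
      have := hd.1
      rw [hg] at this
      simpa using this
  have sub : ∀ g ε δ, w ε δ → cone g δ ⊆ cone' g ε := fun g ε δ hεδ f hf =>
    ⟨⟨hf.1, fun η hη => hf.2 η (trans_of w hη hεδ)⟩, hf.2 ε hεδ⟩
  let Lv : ℝ → Set S := fun δ => {g ∈ U | ¬ (cone g δ).Countable ∧ (cone' g δ).Countable}
  have agree : ∀ δ δ', ∀ g ∈ Lv δ, ∀ g' ∈ Lv δ', ∀ ε, w ε δ → w ε δ' → j g ε = j g' ε := by
    intro δ δ' g hg g' hg' ε h1 h2
    by_contra hne
    obtain ⟨η, hη⟩ := exists_del (j := j) (w := w) (f := g) (g := g') fun e => hne (by rw [e])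
    have : w η δ ∧ w η δ' := by
      rcases trichotomous_of w η ε with e | e | e
      · exact ⟨trans_of w e h1, trans_of w e h2⟩
      · exact e ▸ ⟨h1, h2⟩
      · exact absurd (hη.2 ε e) hne
    rcases nosplit g g' η hη with e | e
    · exact hg.2.1 (e.mono (sub _ _ _ this.1))
    · exact hg'.2.1 (e.mono (sub _ _ _ this.2))
  have hLv : ∀ δ, (Lv δ).Countable := by
    intro δ
    have : ∀ b : Bool, {g ∈ Lv δ | j g δ = b}.Countable := by
      intro b
      rcases eq_empty_or_nonempty {g ∈ Lv δ | j g δ = b} with e | ⟨g, hg⟩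
      · rw [e]; exact countable_empty
      · exact hg.1.2.2.mono fun f hf => And.intro
          (And.intro hf.1.1 fun ε hε => agree δ δ f hf.1 g hg.1 ε hε hε) (hf.2.trans hg.2.symm)
    refine ((this false).union (this true)).mono fun g hg => ?_
    cases e : j g δ
    · exact Or.inl ⟨hg, e⟩
    · exact Or.inr ⟨hg, e⟩
  have hN : {g ∈ U | ∀ δ, g ∉ Lv δ}.Countable := by
    rcases eq_empty_or_nonempty {g ∈ U | ∀ δ, g ∉ Lv δ} with e | ⟨g, hg⟩
    · rw [e]; exact countable_empty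
    have k : ∀ g' ∈ {g ∈ U | ∀ δ, g ∉ Lv δ}, g' ≠ g → ∃ ε, g' ∈ cone g ε ∧ (cone g ε).Countable := by
      intro g' hg' hne
      obtain ⟨ε, hε⟩ := exists_del (j := j) (w := w) (f := g) (g := g') fun e => hne (hj e).symm
      refine ⟨ε, ⟨hg'.1, fun η hη => (hε.2 η hη).symm⟩, ?_⟩
      by_contra hc
      have e : cone g' ε = cone g ε := by
        ext f
        exact and_congr_right fun _ => forall₂_congr fun η hη => by rw [hε.2 η hη]
      rcases nosplit g g' ε hε with e' | e'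
      · exact hg.2 ε ⟨hg.1, hc, e'⟩
      · exact hg'.2 ε ⟨hg'.1, e ▸ hc, e'⟩
    rcases eq_empty_or_nonempty {ε | (cone g ε).Countable} with e | hne
    · refine (countable_singleton g).mono fun g' hg' => ?_
      by_contra hc
      obtain ⟨ε, -, h2⟩ := k g' hg' hc
      exact (e ▸ h2 : ε ∈ (∅ : Set ℝ))
    · obtain ⟨m, hm, hmin⟩ := (IsWellFounded.wf (r := w)).has_min _ hne
      refine (Set.Countable.insert g hm).mono fun g' hg' => ?_
      by_cases hc : g' = g
      · exact Or.inl hc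
      obtain ⟨ε, h1, h2⟩ := k g' hg' hc
      refine Or.inr ⟨hg'.1, fun η hη => h1.2 η ?_⟩
      rcases trichotomous_of w ε m with e | e | e
      · exact absurd e (hmin ε h2)
      · exact e ▸ hη
      · exact trans_of w hη e
  have hE : ∃ d : Bool, ¬ {δ | ∃ g ∈ Lv δ, j g δ = d}.Countable := by
    by_contra hc
    push Not at hc
    apply hU
    refine (hN.union (((hc false).union (hc true)).biUnion fun δ _ => hLv δ)).mono fun g hg => ?_
    by_cases e : ∀ δ, g ∉ Lv δ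
    · exact Or.inl ⟨hg, e⟩
    · push Not at e
      obtain ⟨δ, hδ⟩ := e
      refine Or.inr (mem_biUnion (x := δ) ?_ hδ)
      cases e : j g δ
      · exact Or.inl ⟨g, hδ, e⟩
      · exact Or.inr ⟨g, hδ, e⟩
  obtain ⟨d, hd⟩ := hE
  obtain ⟨E, hE1, hE2, hE3⟩ := thin w _ hd
  have : ∀ δ : ℝ, ∃ g : S, δ ∈ E → g ∈ Lv δ ∧ j g δ = d := by
    intro δ
    obtain ⟨g₀, -, -⟩ := unc_diff hU countable_empty
    by_cases e : δ ∈ E
    · obtain ⟨g, h1, h2⟩ := hE1 e
      exact ⟨g, fun _ => ⟨h1, h2⟩⟩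
    · exact ⟨g₀, fun h => absurd h e⟩
  choose G hG using this
  have hdel : ∀ δ ∈ E, ∀ δ' ∈ E, w δ δ' → Del j w (G δ) (G δ') δ := by
    intro δ hδ δ' hδ' hw
    have ag : ∀ ε, w ε δ → j (G δ) ε = j (G δ') ε := fun ε hε =>
      agree δ δ' _ (hG δ hδ).1 _ (hG δ' hδ').1 ε hε (trans_of w hε hw)
    refine ⟨fun e => (hG δ' hδ').1.2.1 ((hG δ hδ).1.2.2.mono fun f hf => ?_), ag⟩
    have := sub _ _ _ hw hf
    exact ⟨⟨hf.1, fun ε hε => (this.1.2 ε hε).trans (ag ε hε).symm⟩, this.2.trans e.symm⟩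
  have Ginj : InjOn G E := by
    intro δ hδ δ' hδ' e
    rcases trichotomous_of w δ δ' with e' | e' | e'
    · exact absurd (by rw [e]) (hdel δ hδ δ' hδ' e').1
    · exact e'
    · exact absurd (by rw [e]) (hdel δ' hδ' δ hδ e').1
  refine ⟨d, fun x => ?_⟩
  classical
  obtain ⟨e, he, hs⟩ := real_chain E hE2 (fun δ => if x then δ else -δ) (by
      intro a _ b _ hab
      by_cases hx : x <;> simpa [hx] using hab)
    (fun δ δ' => w δ δ' ∧ r (G δ) (G δ')) (by
      intro δ hδ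
      have h1 : {δ' ∈ E | ¬ r (G δ) (G δ')}.Countable := by
        refine countable_of_injective_of_countable_image (f := G)
          (Ginj.mono fun _ h => h.1) ((hU' _ (hG δ hδ).1.1).mono ?_)
        rintro _ ⟨δ', h, rfl⟩
        exact ⟨(hG δ' h.1).1.1, h.2⟩
      refine ((hE3 δ hδ).union h1).mono fun δ' h => ?_
      by_cases hw : w δ δ'
      · exact Or.inr ⟨h.1, fun h' => h.2 ⟨hw, h'⟩⟩
      · exact Or.inl ⟨h.1, hw⟩)
  have hw : ∀ a b, a < b → w (e a) (e b) := fun a b hab =>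
    Nat.rel_of_forall_rel_succ_of_lt w (fun k => (hs k).2.1) hab
  have hr : ∀ a b, a < b → r (G (e a)) (G (e b)) := fun a b hab =>
    Nat.rel_of_forall_rel_succ_of_lt r (f := fun k => G (e k)) (fun k => (hs k).2.2) hab
  have hlt := strictMono_nat_of_lt_succ (f := fun k => if x then e k else -e k)
    fun k => (hs k).1
  refine ⟨fun k => G (e k), e, fun k => (hG _ (he k)).1.1, ?_, ?_, ?_, ?_, ?_⟩
  · exact fun a b hab _ => hdel _ (he a) _ (he b) (hw a b hab)
  · exact fun a _ => (hG _ (he a)).2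
  · exact fun a b hab _ => hw a b hab
  · intro a b hab _
    have := hlt hab
    by_cases hx : x
    · simp only [hx, if_true] at this
      exact iff_of_true this hx
    · simp only [hx, if_false, neg_lt_neg_iff] at this
      exact iff_of_false (not_lt.2 this.le) hx
  · exact fun a b hab _ => ⟨iff_of_true (hr a b hab) trivial,
      iff_of_false (asymm_of r (hr a b hab)) (not_not.2 trivial)⟩

theorem main [IsWellOrder ℝ w] [IsWellOrder S r] [DecidableEq S] (hj : Function.Injective j)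
    (A : Set S) (hA : ¬ A.Countable) (p : Prop) (n : ℕ) :
    ∃ Y : Finset S, ↑Y ⊆ A ∧ Y.card = n ∧ ∀ T ⊆ Y, T.card = 3 → (Col j w r T ↔ p) := by
  obtain ⟨B, hBA, hB, hB'⟩ := thin r A hA
  have : ∃ f δ d x y, (∀ k, f k ∈ B) ∧ Comb j w r n f δ d x y ∧ (((x ↔ y) ↔ d = false) ↔ p) := by
    by_cases h : ∀ U ⊆ B, ¬ U.Countable → Split j w U
    · obtain ⟨x, hx⟩ := kind2 B hB hB' h n
      obtain ⟨f, δ, h1, h2⟩ := hx (x ↔ p)
      exact ⟨f, δ, _, _, _, h1, h2, by tauto⟩
    · push Not at h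
      obtain ⟨U, hUB, hU, hs⟩ := h
      obtain ⟨d, hd⟩ := kind1 (r := r) hj U hU
        (fun x hx => (hB' x (hUB hx)).mono fun y hy => And.intro (hUB hy.1) hy.2) hs n
      obtain ⟨f, δ, h1, h2⟩ := hd (p ↔ d = false)
      exact ⟨f, δ, _, _, _, fun k => hUB (h1 k), h2, by tauto⟩
  obtain ⟨f, δ, d, x, y, h1, h2, h3⟩ := this
  refine ⟨_, ?_, h2.hom.1, fun T hT h => (h2.hom.2 T hT h).trans h3⟩
  intro z hz
  obtain ⟨k, -, rfl⟩ := Finset.mem_image.1 hz
  exact hBA (h1 k)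

end Pool.Agent.H.MP_dc3585_lc
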